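import Mathlib

set_option autoImplicit false

namespace Pool.Agent.Results.MP_5f9057_an.Distinct

open Polynomial Finset Filter Topology

def RR (p : ℝ[X]) : Prop := p = 0 ∨ ∀ z : ℂ, aeval z p = 0 → z.im = 0

def MS (q : ℕ → ℝ[X]) : Set (ℕ → ℝ) :=
  {γ | ∀ (n : ℕ) (a : ℕ → ℝ), RR (∑ k ∈ range (n + 1), a k • q k) →
    RR (∑ k ∈ range (n + 1), (a k * γ k) • q k)}

noncomputable def P (j k : ℕ) : ℝ[X] :=
  if k ≤ j then ∑ i ∈ range (k + 1), X ^ i else X ^ k

lemma mono_aux (s : Multiset ℂ) (hs : ∀ r ∈ s, r.im = 0) (x y y' : ℝ) (h : |y'| ≤ |y|) :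
    ‖(s.map (fun r => (⟨x, y'⟩ : ℂ) - r)).prod‖ ≤ ‖(s.map (fun r => (⟨x, y⟩ : ℂ) - r)).prod‖ := by
  induction s using Multiset.induction_on with
  | empty => simp
  | cons a s ih =>
    simp only [Multiset.map_cons, Multiset.prod_cons, norm_mul]
    have ha : a.im = 0 := hs a (Multiset.mem_cons_self _ _)
    have h1 : ‖(⟨x, y'⟩ : ℂ) - a‖ ≤ ‖(⟨x, y⟩ : ℂ) - a‖ := by
      rw [← sq_le_sq₀ (norm_nonneg _) (norm_nonneg _), Complex.sq_norm, Complex.sq_norm,
        Complex.normSq_apply, Complex.normSq_apply]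
      simp only [Complex.sub_re, Complex.sub_im, ha, sub_zero]
      have := sq_le_sq.mpr h
      nlinarith
    exact mul_le_mul h1 (ih fun r hr => hs r (Multiset.mem_cons_of_mem hr)) (norm_nonneg _)
      (norm_nonneg _)

lemma mono (p : ℝ[X]) (hp : RR p) (x y y' : ℝ) (h : |y'| ≤ |y|) :
    ‖aeval (⟨x, y'⟩ : ℂ) p‖ ≤ ‖aeval (⟨x, y⟩ : ℂ) p‖ := by
  rcases hp with rfl | hp
  · simp
  have hs : (p.map (algebraMap ℝ ℂ)).Splits := IsAlgClosed.splits _
  have e : ∀ z : ℂ, aeval z p = (p.map (algebraMap ℝ ℂ)).eval z := fun z => by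
    rw [eval_map_algebraMap]
  rw [e, e, hs.eval_eq_prod_roots, hs.eval_eq_prod_roots, norm_mul, norm_mul]
  refine mul_le_mul_of_nonneg_left (mono_aux _ (fun r hr => hp r ?_) x y y' h) (norm_nonneg _)
  rw [e]
  exact (isRoot_of_mem_roots hr)

lemma rr_of_mono (p : ℝ[X])
    (h : ∀ x y y' : ℝ, |y'| ≤ |y| → ‖aeval (⟨x, y'⟩ : ℂ) p‖ ≤ ‖aeval (⟨x, y⟩ : ℂ) p‖) : RR p := by
  by_cases hp : p = 0
  · exact Or.inl hp
  refine Or.inr fun z hz => ?_
  by_contra hy
  apply hp
  have h0 : p.map (algebraMap ℝ ℂ) = 0 := by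
    apply eq_zero_of_infinite_isRoot
    have hinf : (Set.Icc (0 : ℝ) |z.im|).Infinite := Set.Icc_infinite (abs_pos.mpr hy)
    have hinj : Function.Injective (fun t : ℝ => (⟨z.re, t⟩ : ℂ)) := fun s t hst => by
      simpa using congrArg Complex.im hst
    refine (hinf.image hinj.injOn).mono ?_
    rintro _ ⟨t, ht, rfl⟩
    have h1 := h z.re z.im t (by rw [abs_of_nonneg ht.1]; exact ht.2)
    have h2 : (⟨z.re, z.im⟩ : ℂ) = z := rfl
    rw [h2, hz, norm_zero] at h1
    simp only [Set.mem_setOf_eq, IsRoot.def, eval_map_algebraMap]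
    exact norm_le_zero_iff.mp h1
  exact (Polynomial.map_eq_zero_iff (algebraMap ℝ ℂ).injective).mp h0

lemma tele (u w : ℕ → ℝ[X]) (c : ℕ → ℝ) (n : ℕ) :
    ∑ k ∈ range (n + 1), (c k • u k - c (k + 1) • w (k + 1)) =
      ∑ k ∈ range (n + 1), c k • (u k - w k) - c (n + 1) • w (n + 1) + c 0 • w 0 := by
  induction n with
  | zero => simp [smul_sub]; abel
  | succ n ih => rw [sum_range_succ, ih, sum_range_succ _ (n + 1), smul_sub]; abel

noncomputable def H (j k : ℕ) (z : ℂ) (R : ℝ) : ℂ :=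
  if k ≤ j then ∑ i ∈ range (k + 1), (R : ℂ) ^ (k - i) * z ^ i else z ^ k

lemma H_eq (j k : ℕ) (z : ℂ) (R : ℝ) (hR : R ≠ 0) :
    (R : ℂ) ^ k * aeval (z / R) (P j k) = H j k z R := by
  have hR' : (R : ℂ) ≠ 0 := by exact_mod_cast hR
  unfold P H
  split_ifs with h
  · simp only [map_sum, map_pow, aeval_X, mul_sum]
    refine sum_congr rfl fun i hi => ?_
    have hi' : i ≤ k := Nat.lt_succ_iff.mp (mem_range.mp hi)
    obtain ⟨m, rfl⟩ := Nat.exists_eq_add_of_le hi'
    rw [Nat.add_sub_cancel_left, div_pow, pow_add]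
    field_simp
  · simp only [map_pow, aeval_X, div_pow]
    field_simp

lemma H_cont (j k : ℕ) (z : ℂ) : Continuous (H j k z) := by
  unfold H
  split_ifs
  · fun_prop
  · fun_prop

lemma H_zero (j k : ℕ) (z : ℂ) : H j k z 0 = z ^ k := by
  unfold H
  split_ifs
  · rw [sum_range_succ, sum_eq_zero]
    · simp
    · intro i hi
      have : k - i ≠ 0 := by have := mem_range.mp hi; omega
      simp [this]
  · rfl

lemma sub_C (j : ℕ) : MS (P j) ⊆ MS (fun k => X ^ k) := by
  intro γ hγ n a ha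
  apply rr_of_mono
  intro x y y' hy
  let e : ℕ → ℝ := fun k => if k < j ∧ k < n then a (k + 1) else 0
  let G : ℂ → ℝ → ℂ := fun z R =>
    ∑ k ∈ range (n + 1), ((a k - e k * R) * γ k : ℝ) * H j k z R
  have hGc : ∀ z, Continuous (G z) := fun z => by
    have := fun k => H_cont j k z
    simp only [G]
    fun_prop
  have hG0 : ∀ z, G z 0 = aeval z (∑ k ∈ range (n + 1), (a k * γ k) • (X : ℝ[X]) ^ k) := by
    intro z
    simp [G, H_zero]
  have key : ∀ R : ℝ, 0 < R → ‖G ⟨x, y'⟩ R‖ ≤ ‖G ⟨x, y⟩ R‖ := by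
    intro R hR
    have hin : ∑ k ∈ range (n + 1), ((a k - e k * R) * R ^ k) • P j k =
        ∑ k ∈ range (n + 1), (a k * R ^ k) • (X : ℝ[X]) ^ k := by
      let c : ℕ → ℝ := fun k => if k ≤ n then a k * R ^ k else 0
      let w : ℕ → ℝ[X] := fun k => if 1 ≤ k ∧ k ≤ j then P j (k - 1) else 0
      have h1 := tele (P j) w c n
      have h2 : c (n + 1) = 0 := by simp [c]
      have h3 : w 0 = 0 := by simp [w]
      rw [h2, h3, zero_smul, smul_zero, sub_zero, add_zero] at h1
      calc _ = ∑ k ∈ range (n + 1), (c k • P j k - c (k + 1) • w (k + 1)) := by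
            refine sum_congr rfl fun k hk => ?_
            have hk' : k ≤ n := Nat.lt_succ_iff.mp (mem_range.mp hk)
            simp only [c, w, e, if_pos hk', Nat.add_sub_cancel]
            by_cases h5 : k < j <;> by_cases h6 : k < n
            · rw [if_pos ⟨h5, h6⟩, if_pos (by omega), if_pos (by omega), ← sub_smul]
              congr 1; ring
            · rw [if_neg (by omega), if_neg (by omega)]; simp
            · rw [if_neg (by omega), if_neg (by omega : ¬ (1 ≤ k + 1 ∧ k + 1 ≤ j))]; simp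
            · rw [if_neg (by omega), if_neg (by omega)]; simp
        _ = _ := by
            rw [h1]
            refine sum_congr rfl fun k hk => ?_
            have hk' : k ≤ n := Nat.lt_succ_iff.mp (mem_range.mp hk)
            simp only [c, w, if_pos hk']
            congr 1
            split_ifs with h5
            · obtain ⟨m, rfl⟩ : ∃ m, k = m + 1 := ⟨k - 1, by omega⟩
              simp only [P, if_pos h5.2, Nat.add_sub_cancel, if_pos (by omega : m ≤ j)]
              rw [sum_range_succ _ (m + 1)]; ring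
            · by_cases h6 : k = 0
              · subst h6; simp [P]
              · simp [P, if_neg (by omega : ¬ k ≤ j)]
    have hR' : (R : ℂ) ≠ 0 := by exact_mod_cast hR.ne'
    have hrr : RR (∑ k ∈ range (n + 1), ((a k - e k * R) * R ^ k) • P j k) := by
      rw [hin]
      apply rr_of_mono
      intro x y y' hy
      have ev : ∀ s t : ℝ, aeval (⟨s, t⟩ : ℂ) (∑ k ∈ range (n + 1), (a k * R ^ k) • (X : ℝ[X]) ^ k)
          = aeval (⟨R * s, R * t⟩ : ℂ) (∑ k ∈ range (n + 1), a k • (X : ℝ[X]) ^ k) := by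
        intro s t
        have : (⟨R * s, R * t⟩ : ℂ) = R * (⟨s, t⟩ : ℂ) := by
          apply Complex.ext <;> simp
        rw [this]
        simp [mul_pow, mul_assoc]
      rw [ev, ev]
      apply mono _ ha
      rw [abs_mul, abs_mul]
      exact mul_le_mul_of_nonneg_left hy (abs_nonneg _)
    have hout := hγ n _ hrr
    have ev : ∀ s t : ℝ, G ⟨s, t⟩ R = aeval (⟨s / R, t / R⟩ : ℂ)
        (∑ k ∈ range (n + 1), ((a k - e k * R) * R ^ k * γ k) • P j k) := by
      intro s t
      have : (⟨s / R, t / R⟩ : ℂ) = (⟨s, t⟩ : ℂ) / R := by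
        apply Complex.ext <;> simp
      rw [this]
      simp only [G, map_sum, map_smul, Complex.real_smul]
      refine sum_congr rfl fun k _ => ?_
      rw [← H_eq j k _ R hR.ne']
      push_cast; ring
    rw [ev, ev]
    apply mono _ hout
    rw [abs_div, abs_div]
    exact div_le_div_of_nonneg_right hy (abs_nonneg _)
  rw [← hG0, ← hG0]
  have t1 : ∀ z, Tendsto (fun R => ‖G z R‖) (𝓝[>] 0) (𝓝 ‖G z 0‖) := fun z =>
    ((hGc z).norm.tendsto 0).mono_left nhdsWithin_le_nhds
  exact le_of_tendsto_of_tendsto (t1 _) (t1 _) (eventually_nhdsWithin_of_forall key)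

lemma not_rr_quad (b c : ℝ) (h : b ^ 2 < 16 * c) (p : ℝ[X])
    (hp : p = C 4 * X ^ 2 + C b * X + C c) : ¬ RR p := by
  rintro (h0 | h0)
  · have := congrArg (fun q => coeff q 2) (hp.symm.trans h0)
    simp [coeff_X, coeff_C] at this
  · have hs : 0 < Real.sqrt (16 * c - b ^ 2) := Real.sqrt_pos.mpr (by linarith)
    have hs2 := Real.sq_sqrt (by linarith : 0 ≤ 16 * c - b ^ 2)
    set s := Real.sqrt (16 * c - b ^ 2)
    have := h0 ⟨-b / 8, s / 8⟩ (by
      rw [hp]
      apply Complex.ext <;> simp [pow_two] <;> nlinarith)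
    simp at this
    linarith

lemma two_pow_mem : (fun k => (2 : ℝ) ^ k) ∈ MS (fun k => X ^ k) := by
  intro n a ha
  apply rr_of_mono
  intro x y y' hy
  have ev : ∀ s t : ℝ, aeval (⟨s, t⟩ : ℂ) (∑ k ∈ range (n + 1), (a k * 2 ^ k) • (X : ℝ[X]) ^ k)
      = aeval (⟨2 * s, 2 * t⟩ : ℂ) (∑ k ∈ range (n + 1), a k • (X : ℝ[X]) ^ k) := by
    intro s t
    have : (⟨2 * s, 2 * t⟩ : ℂ) = 2 * (⟨s, t⟩ : ℂ) := by
      apply Complex.ext <;> simp
    rw [this]
    simp [mul_pow, mul_assoc]
  rw [ev, ev]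
  apply mono _ ha
  rw [abs_mul, abs_mul]
  exact mul_le_mul_of_nonneg_left hy (abs_nonneg _)

lemma rr_pow (c : ℝ) (m : ℕ) : RR (c • (X : ℝ[X]) ^ m) := by
  by_cases hc : c = 0
  · left; simp [hc]
  · right
    intro z hz
    simp [hc] at hz
    simp [hz.1]

lemma two_pow_not (j : ℕ) (hj : 1 ≤ j) : (fun k => (2 : ℝ) ^ k) ∉ MS (P j) := by
  intro h
  rcases eq_or_lt_of_le hj with rfl | hj
  · have h1 := h 2 (fun k => if k = 0 then -1 else 1) (by
      right
      intro z hz
      simp [sum_range_succ, P] at hz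
      have : z * (z + 1) = 0 := by linear_combination hz
      rcases mul_eq_zero.mp this with h | h
      · simp [h]
      · have : z = -1 := by linear_combination h
        simp [this])
    refine not_rr_quad 2 1 (by norm_num) _ ?_ h1
    simp [sum_range_succ, P, smul_eq_C_mul]
    simp only [map_ofNat]
    ring
  · have h1 := h 2 (fun k => if k = 0 then 0 else if k = 1 then -1 else 1) (by
      have : ∑ k ∈ range (2 + 1), (if k = 0 then (0 : ℝ) else if k = 1 then -1 else 1) • P j k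
          = (1 : ℝ) • X ^ 2 := by
        simp [sum_range_succ, P, hj.le, show 2 ≤ j from hj]
        ring
      rw [this]
      exact rr_pow _ _)
    refine not_rr_quad 2 2 (by norm_num) _ ?_ h1
    simp [sum_range_succ, P, smul_eq_C_mul, hj.le, show 2 ≤ j from hj]
    simp only [map_ofNat]
    ring

lemma delta_mem (j : ℕ) : (fun k => if k = j + 1 then (1 : ℝ) else 0) ∈ MS (P j) := by
  intro n a _
  simp only [mul_ite, mul_one, mul_zero, ite_smul, zero_smul, sum_ite_eq']
  split_ifs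
  · simp only [P, if_neg (by omega : ¬ j + 1 ≤ j)]
    exact rr_pow _ _
  · exact Or.inl rfl

lemma delta_not (i j : ℕ) (hj : 1 ≤ j) (h : j < i) :
    (fun k => if k = j + 1 then (1 : ℝ) else 0) ∉ MS (P i) := by
  intro hm
  have h1 := hm (j + 1) (fun k => if k = j + 1 then 1 else if k = j then -1 else 0) (by
    have : ∑ k ∈ range (j + 1 + 1), (if k = j + 1 then (1 : ℝ) else if k = j then -1 else 0) • P i k
        = (1 : ℝ) • X ^ (j + 1) := by
      rw [sum_range_succ, sum_range_succ, sum_eq_zero]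
      · simp only [P, if_pos h.le, if_pos (by omega : j + 1 ≤ i), sum_range_succ _ (j + 1)]
        simp
      · intro k hk
        have := mem_range.mp hk
        rw [if_neg (by omega), if_neg (by omega), zero_smul]
    rw [this]
    exact rr_pow _ _)
  simp only [mul_ite, mul_one, mul_zero, ite_smul, zero_smul, sum_ite_eq', mem_range,
    Nat.lt_add_one, if_true, one_smul, P, if_pos (by omega : j + 1 ≤ i)] at h1
  rcases h1 with h1 | h1
  · have := congrArg (fun q => eval (1 : ℝ) q) h1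
    simp [eval_finsetSum] at this
    have : (0 : ℝ) ≤ j := Nat.cast_nonneg j
    linarith
  · have hp := Complex.isPrimitiveRoot_exp (j + 2) (by omega)
    set ζ := Complex.exp (2 * Real.pi * Complex.I / ((j + 2 : ℕ) : ℂ))
    have h2 : ζ.im = 0 := h1 ζ (by
      simp only [map_sum, map_pow, aeval_X]
      exact hp.geom_sum_eq_zero (by omega))
    have h3 : ‖ζ‖ = 1 := hp.norm'_eq_one (by omega)
    have h4 : ζ ^ 2 = 1 := by
      have h5 : ζ.re * ζ.re = 1 := by
        have := Complex.sq_norm ζ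
        rw [h3, Complex.normSq_apply, h2] at this
        linarith
      apply Complex.ext <;> simp [pow_two, h2, h5]
    have := Nat.le_of_dvd (by norm_num) (hp.dvd_of_pow_eq_one 2 h4)
    omega

lemma deg (j k : ℕ) : (P j k).degree = k := by
  unfold P
  split_ifs
  · rw [sum_range_succ, degree_add_eq_right_of_degree_lt, degree_X_pow]
    rw [degree_X_pow]
    refine (degree_sum_le _ _).trans_lt ?_
    rw [Finset.sup_lt_iff (by exact WithBot.bot_lt_coe k)]
    intro i hi
    rw [degree_X_pow]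
    exact_mod_cast mem_range.mp hi
  · exact degree_X_pow k

theorem result :
    (∀ j k : ℕ, (P j k).degree = k) ∧
    (∀ i j : ℕ, 1 ≤ i → 1 ≤ j → i ≠ j → MS (P i) ≠ MS (P j)) ∧
    (⋃ j ∈ {j : ℕ | 1 ≤ j}, MS (P j)) ⊂ MS (fun k => X ^ k) := by
  refine ⟨deg, fun i j hi hj hij he => ?_, ?_⟩
  · rcases lt_or_gt_of_ne hij with h | h
    · exact delta_not j i hi h (he ▸ delta_mem i)
    · exact delta_not i j hj h (he ▸ delta_mem j)
  · refine ⟨Set.iUnion₂_subset fun j _ => sub_C j, fun h => ?_⟩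
    obtain ⟨j, hj, hm⟩ := Set.mem_iUnion₂.mp (h two_pow_mem)
    exact two_pow_not j hj hm

end Pool.Agent.Results.MP_5f9057_an.Distinct
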